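import Mathlib
import Pool.Agent.H682R2.StdAlg

/-!
For every field `F` of characteristic zero and every `n ≥ 8` the variety `S(n)` of associative
algebras defined by the standard identity `s_n = 0` is not Magnus: there is a two-generated
algebra with one relation in `S(n)` whose word problem is undecidable, already for the elements
given by noncommutative polynomials with integer coefficients and zero constant term.  This holds
both for the variety of all algebras with `s_n = 0` (no unit required) and for the variety of
unital algebras.

Idea of the proof. Put `P(z) = z (z - 1) ⋯ (z - R)` and take the relation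
`f = P(z) + z Θ - Θ z`. In the algebra of differential operators generated by multiplication by
`z` and by `P ∂` the standard polynomial `s_n` takes a nonzero value (a Vandermonde determinant);
hence `s_n = 0` and `f = 0` force a nonzero polynomial in `z` to vanish, and since the ideal of
all such polynomials is stable under `P ∂`, the element `P(z)` is nilpotent. So idempotents `e_a`
(polynomials in `z`) are available for the roots `a` of `P`; if `Θ` is a sum of elements
`e_a ρ_ab e_b` with `a ≠ b`, then `f = 0` forces all the relations `e_a ρ_ab e_b = 0` at once.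
These relations are chosen so that the resulting algebra simulates a generalised Collatz map with
undecidable halting problem, while a module over the algebra, on which it acts through lower
triangular `5 × 5` matrices over commutative rings with equal first and last diagonal entry,
shows that nothing else collapses; such matrices satisfy `s_8`.
-/

namespace Pool.Agent.Results.MP_7596fa_lc.SnNotMagnus

/-- The standard polynomial `s_n(y_1, …, y_n) = ∑_σ sgn(σ) y_{σ(1)} ⋯ y_{σ(n)}`. -/
def standard {B : Type*} [Ring B] {n : ℕ} (y : Fin n → B) : B :=
  ∑ σ : Equiv.Perm (Fin n), Equiv.Perm.sign σ • (List.ofFn fun i => y (σ i)).prod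

/-- The ideal of the noncommutative polynomials without constant term. -/
def noConst (F : Type*) [Field F] (k : ℕ) : TwoSidedIdeal (FreeAlgebra F (Fin k)) :=
  TwoSidedIdeal.span (Set.range (FreeAlgebra.ι F : Fin k → FreeAlgebra F (Fin k)))

/-- The values of the standard polynomial `s_n` on the free algebra; for `unital = false` only its
values on elements without constant term. -/
def values (F : Type*) [Field F] (n k : ℕ) (unital : Bool) : Set (FreeAlgebra F (Fin k)) :=
  {p | ∃ y : Fin n → FreeAlgebra F (Fin k),
    (unital = false → ∀ i, y i ∈ noConst F k) ∧ p = standard y}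

/-- The relatively free algebra of rank `k` in the variety `S(n)`: the free associative algebra
modulo the ideal generated by the values of `s_n`. For `unital = false` this is the relatively
free algebra of the variety of all (not necessarily unital) algebras satisfying `s_n = 0`, with a
unit adjoined; for `unital = true` it is the relatively free algebra of the variety of unital
algebras. -/
abbrev RelFree (F : Type*) [Field F] (n k : ℕ) (unital : Bool) :=
  (TwoSidedIdeal.span (values F n k unital)).ringCon.Quotient

/-- The free generators of the relatively free algebra. -/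
def gen (F : Type*) [Field F] (n k : ℕ) (unital : Bool) (i : Fin k) : RelFree F n k unital :=
  (TwoSidedIdeal.span (values F n k unital)).ringCon.mk' (FreeAlgebra.ι F i)

/-- A noncommutative polynomial with integer coefficients and zero constant term is given as a
finite list of signed nonempty words `± x_i x_j ⋯` (the first letter and the list of the other
letters); this is its value in the relatively free algebra. -/
def value (F : Type*) [Field F] (n k : ℕ) (unital : Bool)
    (g : List (Bool × Fin k × List (Fin k))) : RelFree F n k unital :=
  (g.map fun t => (if t.1 then 1 else -1) *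
    (gen F n k unital t.2.1 * (t.2.2.map (gen F n k unital)).prod)).sum

/-- Membership in an ideal of a quotient. -/
theorem mem_quot {A : Type*} [Ring A] (T : Set A) (f g : A) :
    (TwoSidedIdeal.span T).ringCon.mk' g ∈
      TwoSidedIdeal.span {(TwoSidedIdeal.span T).ringCon.mk' f} ↔
    g ∈ TwoSidedIdeal.span ({f} ∪ T) := by
  set π := (TwoSidedIdeal.span T).ringCon.mk' with hπ
  have hker : ∀ a, π a = 0 ↔ a ∈ TwoSidedIdeal.span T := by
    intro a
    rw [← TwoSidedIdeal.mem_ker, hπ, TwoSidedIdeal.ker_ringCon_mk']
  set J := TwoSidedIdeal.span ({f} ∪ T) with hJ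
  have hTJ : ∀ a, π a = 0 → a ∈ J := by
    intro a ha
    exact TwoSidedIdeal.span_mono Set.subset_union_right ((hker a).1 ha)
  have hsurj : Function.Surjective π := RingCon.mk'_surjective _
  constructor
  · intro h
    let J' : TwoSidedIdeal (TwoSidedIdeal.span T).ringCon.Quotient :=
      TwoSidedIdeal.mk' {y | ∀ a, π a = y → a ∈ J}
        (fun a ha => hTJ a ha)
        (by
          intro x y hx hy a ha
          obtain ⟨b, rfl⟩ := hsurj x
          obtain ⟨c, rfl⟩ := hsurj y
          have h1 : a - (b + c) ∈ J := hTJ _ (by rw [map_sub, map_add, ha, sub_self])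
          have h2 := J.add_mem h1 (J.add_mem (hx b rfl) (hy c rfl))
          simpa using h2)
        (by
          intro x hx a ha
          have h1 := hx (-a) (by rw [map_neg, ha, neg_neg])
          have h2 := J.neg_mem h1
          rwa [neg_neg] at h2)
        (by
          intro x y hy a ha
          obtain ⟨b, rfl⟩ := hsurj x
          obtain ⟨c, rfl⟩ := hsurj y
          have h1 : a - b * c ∈ J := hTJ _ (by rw [map_sub, map_mul, ha, sub_self])
          have h2 := J.add_mem h1 (J.mul_mem_left b c (hy c rfl))
          simpa using h2)
        (by
          intro x y hx a ha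
          obtain ⟨b, rfl⟩ := hsurj x
          obtain ⟨c, rfl⟩ := hsurj y
          have h1 : a - b * c ∈ J := hTJ _ (by rw [map_sub, map_mul, ha, sub_self])
          have h2 := J.add_mem h1 (J.mul_mem_right b c (hx b rfl))
          simpa using h2)
    have hle : TwoSidedIdeal.span {π f} ≤ J' := by
      rw [TwoSidedIdeal.span_le]
      intro y hy
      rw [Set.mem_singleton_iff] at hy
      rw [SetLike.mem_coe, TwoSidedIdeal.mem_mk']
      intro a ha
      have h1 : a - f ∈ J := hTJ _ (by rw [map_sub, ha, hy, sub_self])
      have h2 := J.add_mem h1 (TwoSidedIdeal.subset_span (Or.inl rfl) : f ∈ J)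
      simpa using h2
    have h1 := hle h
    rw [TwoSidedIdeal.mem_mk'] at h1
    exact h1 g rfl
  · intro h
    have hle : J ≤ TwoSidedIdeal.comap π (TwoSidedIdeal.span {π f}) := by
      rw [hJ, TwoSidedIdeal.span_le]
      rintro y (hy | hy)
      · rw [Set.mem_singleton_iff] at hy
        rw [SetLike.mem_coe, TwoSidedIdeal.mem_comap, hy]
        exact TwoSidedIdeal.subset_span rfl
      · rw [SetLike.mem_coe, TwoSidedIdeal.mem_comap, (hker y).2 (TwoSidedIdeal.subset_span hy)]
        exact TwoSidedIdeal.zero_mem _
    exact (TwoSidedIdeal.mem_comap _).1 (hle h)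

open Pool.Agent.Helper707 in
theorem value_gl (F : Type*) [Field F] [CharZero F] (n : ℕ) (unital : Bool) (Y : Rel.Sys) (N : ℕ) :
    value F n 2 unital (Words.gl Y.m N) = (TwoSidedIdeal.span (values F n 2 unital)).ringCon.mk'
      (Alg.gel F Y (FreeAlgebra.ι F (0 : Fin 2)) (FreeAlgebra.ι F 1) N) := by
  have h1 := Words.evL_rest (F := F) (FreeAlgebra.ι F : Fin 2 → FreeAlgebra F (Fin 2)) Y N
  rw [← h1, map_mul]
  unfold value Words.gl Words.evL
  rw [map_list_sum, List.map_map, List.map_map, ← List.sum_map_mul_left]
  congr 1
  refine List.map_congr_left fun a _ => ?_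
  obtain ⟨s, u⟩ := a
  simp only [Function.comp_apply, Words.evT, gen, map_mul, map_list_prod, List.map_map]
  cases s
  · simp only [Bool.false_eq_true, if_false, map_neg, map_one]
    simp only [neg_mul, one_mul, mul_neg]
    rfl
  · simp only [if_true, map_one, one_mul]
    rfl

open Pool.Agent.Helper707 Pool.Agent.H682R2 in
/-- **Main theorem.** Let `F` be a field of characteristic zero and `n ≥ 8`. There is an element
`f` of the relatively free algebra of rank 2 of the variety `S(n)` defined by the standard
identity `s_n = 0`, lying in the ideal generated by the free generators (no constant term), such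
that the word problem of the algebra with the one relation `f = 0` is undecidable: there is no
algorithm which decides, for a noncommutative polynomial `g` with integer coefficients and no
constant term, whether its value lies in the two-sided ideal generated by `f`. -/
theorem result (F : Type*) [Field F] [CharZero F] (n : ℕ) (hn : 8 ≤ n) (unital : Bool) :
    ∃ f : RelFree F n 2 unital, f ∈ TwoSidedIdeal.span (Set.range (gen F n 2 unital)) ∧
      ¬ ComputablePred fun g : List (Bool × Fin 2 × List (Fin 2)) =>
          value F n 2 unital g ∈ TwoSidedIdeal.span {f} := by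
  obtain ⟨Y, S, p, hm, hund⟩ := Pool.Agent.Helper707.Num.exists_undecidable_sys
  obtain ⟨M, hM, hnil⟩ := StdNil.exists_nil F n (4 * Y.m + 5)
  have hvals : values F n 2 unital = StdAlg.vals F n 2 unital := rfl
  set π := (TwoSidedIdeal.span (values F n 2 unital)).ringCon.mk' with hπ
  set z : FreeAlgebra F (Fin 2) := FreeAlgebra.ι F 0 with hz
  set x : FreeAlgebra F (Fin 2) := FreeAlgebra.ι F 1 with hx
  refine ⟨π (Alg.fel F Y M z x), ?_, ?_⟩
  · set I := TwoSidedIdeal.span (Set.range (gen F n 2 unital)) with hI
    have hzI : π z ∈ I := TwoSidedIdeal.subset_span ⟨0, rfl⟩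
    have hP : Idem.P F (4 * Y.m + 5)
        = (∏ i ∈ Finset.range (4 * Y.m + 5), (Polynomial.X - Polynomial.C ((i + 1 : ℕ) : F)))
          * Polynomial.X := by
      unfold Idem.P
      rw [Finset.prod_range_succ']
      simp
    have h1 : Alg.fel F Y M z x = Polynomial.aeval z (Idem.P F (4 * Y.m + 5))
        + (z * Alg.tel F Y M z x - Alg.tel F Y M z x * z) := rfl
    rw [h1, hP, map_mul (Polynomial.aeval z), Polynomial.aeval_X, map_add, map_sub, map_mul,
      map_mul, map_mul]
    exact I.add_mem (I.mul_mem_left _ _ hzI)
      (I.sub_mem (I.mul_mem_right _ _ hzI) (I.mul_mem_left _ _ hzI))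
  · intro hc
    apply hund
    obtain ⟨d, hd, hdp⟩ := ComputablePred.computable_iff.1 hc
    have hpow : Primrec fun k : ℕ => S * p ^ k := by
      have h1 : Primrec fun k : ℕ => p ^ k := by
        have h2 : Primrec (Nat.rec (motive := fun _ => ℕ) 1 (fun _ ih => ih * p)) :=
          Primrec.nat_rec₁ 1 (Primrec.nat_mul.comp Primrec.snd (Primrec.const p))
        refine h2.of_eq fun k => ?_
        induction k with
        | zero => rfl
        | succ k ih => rw [pow_succ, ← ih]
      exact Primrec.nat_mul.comp (Primrec.const S) h1
    have hgl : Computable fun k : ℕ => Words.gl Y.m (S * p ^ k) :=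
      ((Words.primrec_gl Y.m).comp hpow).to_comp
    rw [ComputablePred.computable_iff]
    refine ⟨fun k => d (Words.gl Y.m (S * p ^ k)), hd.comp hgl, ?_⟩
    funext k
    have h3 := congrFun hdp (Words.gl Y.m (S * p ^ k))
    rw [← h3, value_gl, mem_quot, hvals]
    exact propext (StdAlg.mem_iff F hm hn hM hnil unital).symm

end Pool.Agent.Results.MP_7596fa_lc.SnNotMagnus
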